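import Pool.Agent.MP_d5eec5_gt.H77.KBot

/-! A crossing on top of `bot l` swaps two labels. -/

set_option autoImplicit false

namespace Pool.Agent.MP_d5eec5_gt.H77

open Pool.Agent.MP_d5eec5_gt.H48 Kind

/-- A new minimum whose right strand travels `j` places. -/
def n1T (j : ℕ) : List Gen := (0, cup) :: chain j

theorem n1T_succ (j : ℕ) : n1T (j + 1) = n1T j ++ [(j + 1, cr true)] := by
  simp [n1T, chain_succ]

theorem n1T_cnt {n j : ℕ} (h : j ≤ n) : cnt n (n1T j) = n + 2 := by
  have := (chain_ok (n := n + 2) (j := j) (by omega)).2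
  simpa [n1T, win, wout] using this

theorem n1_bot (a : ℕ) (l : List ℕ) : bot (a :: l) = bot (l.erase a) ++ n1T (l.idxOf a) :=
  bot_cons a l

theorem n1_far {n p q : ℕ} (h : p + 2 ≤ q) (h' : q + 2 ≤ n) :
    FE n [(q, cr true), (p, cr true)] [(p, cr true), (q, cr true)] :=
  fe_far' (by simpa [win] using h) (by simpa [win] using h') (by simp [win, wout])

theorem n1_A {n k : ℕ} (hk : k + 2 ≤ n) (j : ℕ) (hj : j ≤ k) :
    FE n (n1T j ++ [(k + 2, cr true)]) ([(k, cr true)] ++ n1T j) := by
  induction j with
  | zero =>
    exact (fe_far' (n := n) (p := 0) (q := k) (q' := k + 2) (k := cup) (l := cr true)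
      (by simp [win]) (by simpa [win] using hk) (by simp [win, wout])).symm
  | succ j ih =>
    have h1 : FE n (n1T j ++ [(j + 1, cr true), (k + 2, cr true)])
        (n1T j ++ [(k + 2, cr true), (j + 1, cr true)]) :=
      FE.left _ (by rw [n1T_cnt (by omega)]; exact (n1_far (by omega) (by omega)).symm)
    have h2 := FE.right [((j + 1, cr true) : Gen)] (ih (by omega))
    rw [n1T_succ]
    simp only [List.append_assoc, List.cons_append, List.nil_append] at h1 h2 ⊢
    exact h1.trans h2

theorem n1_B {n k : ℕ} (d : ℕ) (h : k + 2 + d ≤ n) :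
    FE n (n1T (k + 2 + d) ++ [(k + 1, cr true)]) ([(k, cr true)] ++ n1T (k + 2 + d)) := by
  induction d with
  | zero =>
    have h1 : FE n (n1T k ++ [(k + 1, cr true), (k + 1 + 1, cr true), (k + 1, cr true)])
        (n1T k ++ [(k + 1 + 1, cr true), (k + 1, cr true), (k + 1 + 1, cr true)]) :=
      FE.left _ (by rw [n1T_cnt (by omega)]; exact fe_r3 (by omega) _ _ _ _ _ _)
    have h2 := FE.right [((k + 1, cr true) : Gen), (k + 1 + 1, cr true)]
      (n1_A (n := n) (k := k) (by omega) k le_rfl)
    rw [show k + 2 + 0 = k + 1 + 1 from rfl, n1T_succ, n1T_succ]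
    simp only [List.append_assoc, List.cons_append, List.nil_append] at h1 h2 ⊢
    exact h1.trans h2
  | succ d ih =>
    have h1 : FE n (n1T (k + 2 + d) ++ [(k + 2 + d + 1, cr true), (k + 1, cr true)])
        (n1T (k + 2 + d) ++ [(k + 1, cr true), (k + 2 + d + 1, cr true)]) :=
      FE.left _ (by rw [n1T_cnt (by omega)]; exact n1_far (by omega) (by omega))
    have h2 := FE.right [((k + 2 + d + 1, cr true) : Gen)] (ih (by omega))
    rw [show k + 2 + (d + 1) = k + 2 + d + 1 from rfl, n1T_succ]
    simp only [List.append_assoc, List.cons_append, List.nil_append] at h1 h2 ⊢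
    exact h1.trans h2

theorem n1_D {n j : ℕ} (h : j + 1 ≤ n) : FE n (n1T (j + 1) ++ [(j + 1, cr true)]) (n1T j) := by
  have h1 : FE n (n1T j ++ [(j + 1, cr true), (j + 1, cr true)]) (n1T j ++ []) :=
    FE.left _ (by rw [n1T_cnt (by omega)]; exact fe_r2 (by omega) _ _)
  rw [n1T_succ]
  simpa only [List.append_assoc, List.cons_append, List.nil_append, List.append_nil] using h1

theorem n1_E0 {n : ℕ} (p : ℕ) (h : p ≤ n) :
    FE n (n1T p ++ n1T (p + 1) ++ [(0, cr true)]) (n1T p ++ n1T (p + 2)) := by
  induction p with
  | zero =>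
    have h1 : FE n [(0, cup), (0, cup), (1, cr true), (0, cr true)]
        [(0, cup), (1, cup), (0, cr true), (0, cr true)] :=
      FE.cons _ (FE.right [((0, cr true) : Gen)]
        (fe_pcup (p := 0) (by simp [win, wout]) true true).symm)
    have h2 : FE n [(0, cup), (1, cup), (0, cr true), (0, cr true)] [(0, cup), (1, cup)] :=
      FE.cons _ (FE.cons _ (fe_r2 (by simp [win, wout]) _ _))
    have h3 : FE n [(0, cup), (0, cup), (1, cr true), (2, cr true)]
        [(0, cup), (2, cup), (1, cr true), (2, cr true)] :=
      FE.right [((1, cr true) : Gen), (2, cr true)]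
        (fe_far' (n := n) (p := 0) (q := 0) (q' := 2) (k := cup) (l := cup)
          (by simp [win]) (by simp [win]) (by simp [win, wout]))
    have h4 : FE n [(0, cup), (2, cup), (1, cr true), (2, cr true)]
        [(0, cup), (1, cup), (2, cr true), (2, cr true)] :=
      FE.cons _ (FE.right [((2, cr true) : Gen)]
        (fe_pcup (p := 1) (by simp [win, wout]) true true))
    have h5 : FE n [(0, cup), (1, cup), (2, cr true), (2, cr true)] [(0, cup), (1, cup)] :=
      FE.cons _ (FE.cons _ (fe_r2 (by simp [win, wout]) _ _))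
    exact (h1.trans h2).trans ((h3.trans h4).trans h5).symm
  | succ p ih =>
    have c1 : cnt n (n1T p) = n + 2 := n1T_cnt (by omega)
    have h1 : FE n (n1T p ++ ([(p + 1, cr true)] ++ n1T (p + 1)) ++
          [(p + 1 + 1, cr true), (0, cr true)])
        (n1T p ++ (n1T (p + 1) ++ [(p + 1 + 2, cr true)]) ++
          [(p + 1 + 1, cr true), (0, cr true)]) :=
      FE.ctx _ _ (by rw [c1]; exact (n1_A (by omega) _ le_rfl).symm)
    have c2 : cnt n (n1T p ++ n1T (p + 1)) = n + 4 := by
      rw [cnt_append, c1, n1T_cnt (by omega)]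
    have h2 : FE n (n1T p ++ n1T (p + 1) ++
          [(p + 1 + 2, cr true), (p + 1 + 1, cr true), (0, cr true)])
        (n1T p ++ n1T (p + 1) ++ [(0, cr true), (p + 1 + 2, cr true), (p + 1 + 1, cr true)]) := by
      apply FE.left
      rw [c2]
      refine (FE.cons _ (n1_far (by omega) (by simp [win, wout]; omega))).trans ?_
      exact FE.right [((p + 1 + 1, cr true) : Gen)] (n1_far (by omega) (by omega))
    have h3 := FE.right [((p + 1 + 2, cr true) : Gen), (p + 1 + 1, cr true)] (ih (by omega))
    have h4 : FE n (n1T p ++ (n1T (p + 1 + 2 + 0) ++ [(p + 1 + 1, cr true)]))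
        (n1T p ++ ([(p + 1, cr true)] ++ n1T (p + 1 + 2 + 0))) :=
      FE.left _ (by rw [c1]; exact n1_B 0 (by omega))
    have e1 : n1T (p + 1 + 2 + 0) = n1T (p + 2) ++ [(p + 1 + 2, cr true)] := n1T_succ (p + 2)
    have e2 : n1T (p + 1) ++ n1T (p + 1 + 1) ++ [((0, cr true) : Gen)] =
        n1T p ++ ([(p + 1, cr true)] ++ n1T (p + 1)) ++ [(p + 1 + 1, cr true), (0, cr true)] := by
      rw [n1T_succ (p + 1)]
      nth_rewrite 1 [n1T_succ p]
      simp only [List.append_assoc, List.cons_append, List.nil_append]
    have e3 : n1T (p + 1) ++ n1T (p + 1 + 2) =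
        n1T p ++ ([(p + 1, cr true)] ++ n1T (p + 1 + 2 + 0)) := by
      rw [n1T_succ p]
      simp only [List.append_assoc, Nat.add_zero]
    rw [e2, e3]
    refine h1.trans (FE.trans ?_ h4)
    rw [e1]
    simp only [List.append_assoc, List.cons_append, List.nil_append] at h2 h3 ⊢
    exact h2.trans h3

theorem n1_E1 {n : ℕ} (p d : ℕ) (h : p + d ≤ n) :
    FE n (n1T (p + d) ++ n1T (p + 1) ++ [(0, cr true)]) (n1T p ++ n1T (p + d + 2)) := by
  induction d with
  | zero => exact n1_E0 p h
  | succ d ih =>
    have c1 : cnt n (n1T (p + d)) = n + 2 := n1T_cnt (by omega)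
    have h1 : FE n (n1T (p + d) ++ ([(p + d + 1, cr true)] ++ n1T (p + 1)) ++ [(0, cr true)])
        (n1T (p + d) ++ (n1T (p + 1) ++ [(p + d + 1 + 2, cr true)]) ++ [(0, cr true)]) :=
      FE.ctx _ _ (by rw [c1]; exact (n1_A (by omega) _ (by omega)).symm)
    have c2 : cnt n (n1T (p + d) ++ n1T (p + 1)) = n + 4 := by
      rw [cnt_append, c1, n1T_cnt (by omega)]
    have h2 : FE n (n1T (p + d) ++ n1T (p + 1) ++ [(p + d + 1 + 2, cr true), (0, cr true)])
        (n1T (p + d) ++ n1T (p + 1) ++ [(0, cr true), (p + d + 1 + 2, cr true)]) :=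
      FE.left _ (by rw [c2]; exact n1_far (by omega) (by omega))
    have h3 := FE.right [((p + d + 1 + 2, cr true) : Gen)] (ih (by omega))
    have e1 : n1T (p + (d + 1)) = n1T (p + d) ++ [(p + d + 1, cr true)] := n1T_succ (p + d)
    have e2 : n1T (p + (d + 1) + 2) = n1T (p + d + 2) ++ [(p + d + 1 + 2, cr true)] :=
      n1T_succ (p + d + 2)
    rw [e1, e2]
    simp only [List.append_assoc, List.cons_append, List.nil_append] at h1 h2 h3 ⊢
    exact h1.trans (h2.trans h3)

theorem n1_E2 {n : ℕ} (p d : ℕ) (h : p + d ≤ n) :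
    FE n (n1T p ++ n1T (p + d + 2) ++ [(0, cr true)]) (n1T (p + d) ++ n1T (p + 1)) := by
  have h1 := FE.right [((0, cr true) : Gen)] (n1_E1 p d h)
  have c2 : cnt n (n1T (p + d) ++ n1T (p + 1)) = n + 4 := by
    rw [cnt_append, n1T_cnt h, n1T_cnt (by omega)]
  have h2 : FE n (n1T (p + d) ++ n1T (p + 1) ++ [(0, cr true), (0, cr true)])
      (n1T (p + d) ++ n1T (p + 1) ++ []) :=
    FE.left _ (by rw [c2]; exact fe_r2 (by omega) _ _)
  simp only [List.append_assoc, List.cons_append, List.nil_append, List.append_nil] at h1 h2 ⊢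
  exact h1.symm.trans h2

theorem n1_idx {x y : ℕ} (hxy : x ≠ y) (l : List ℕ) (hx : x ∈ l) (hy : y ∈ l) :
    (∃ d, l.idxOf y = l.idxOf x + d + 1 ∧ (l.erase x).idxOf y = l.idxOf x + d ∧
      (l.erase y).idxOf x = l.idxOf x) ∨
    (∃ d, l.idxOf x = l.idxOf y + d + 1 ∧ (l.erase y).idxOf x = l.idxOf y + d ∧
      (l.erase x).idxOf y = l.idxOf y) := by
  induction l with
  | nil => simp at hx
  | cons b l ih =>
    by_cases e1 : b = x
    · subst e1
      left
      refine ⟨l.idxOf y, ?_, ?_, ?_⟩
      · simp [List.idxOf_cons_ne _ hxy]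
      · simp
      · simp [hxy]
    · by_cases e2 : b = y
      · subst e2
        right
        refine ⟨l.idxOf x, ?_, ?_, ?_⟩
        · simp [List.idxOf_cons_ne _ e1]
        · simp
        · simp [e1]
      · have hx' : x ∈ l := by simpa [Ne.symm e1] using hx
        have hy' : y ∈ l := by simpa [Ne.symm e2] using hy
        have f1 : (b :: l).erase x = b :: l.erase x := by simp [e1]
        have f2 : (b :: l).erase y = b :: l.erase y := by simp [e2]
        rw [f1, f2]
        simp only [List.idxOf_cons_ne _ e1, List.idxOf_cons_ne _ e2]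
        rcases ih hx' hy' with ⟨d, h1, h2, h3⟩ | ⟨d, h1, h2, h3⟩
        · left; exact ⟨d, by omega, by omega, by omega⟩
        · right; exact ⟨d, by omega, by omega, by omega⟩

theorem n1_front (l₂ : List ℕ) (x y : ℕ) (h : Dbl (x :: y :: l₂)) :
    FE 0 (bot (x :: y :: l₂) ++ [(0, cr true)]) (bot (y :: x :: l₂)) := by
  by_cases hxy : x = y
  · subst hxy
    rw [n1_bot]
    simp only [List.erase_cons_head, List.idxOf_cons_self, List.append_assoc]
    exact FE.left _ (fe_r1cup (Nat.zero_le _) _)
  · have hyx : y ≠ x := Ne.symm hxy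
    have h' : Dbl (y :: x :: l₂) := Dbl.swap (l₁ := []) h
    have hx : x ∈ l₂ := by simpa [hxy] using h.mem_tail
    have hy : y ∈ l₂ := by simpa [hyx] using h'.mem_tail
    have f1 : (y :: l₂).erase x = y :: l₂.erase x := by simp [hyx]
    have f2 : (x :: l₂).erase y = x :: l₂.erase y := by simp [hxy]
    have hd : Dbl ((l₂.erase x).erase y) := by
      have := h.erase
      rw [f1] at this
      exact this.erase
    have hy' : y ∈ l₂.erase x := (List.mem_erase_of_ne hyx).mpr hy
    have hl : ((l₂.erase x).erase y).length + 2 = l₂.length := by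
      have a1 := List.length_erase_of_mem hx
      have a2 := List.length_erase_of_mem hy'
      have a3 := List.length_pos_of_mem hy'
      omega
    have ix := List.idxOf_lt_length_of_mem hx
    have iy := List.idxOf_lt_length_of_mem hy
    rw [n1_bot x, n1_bot y (x :: l₂), f1, f2, n1_bot y, n1_bot x, List.erase_comm y x,
      List.idxOf_cons_ne _ hyx, List.idxOf_cons_ne _ hxy]
    simp only [List.append_assoc]
    apply FE.left
    rw [bot_cnt hd, ← List.append_assoc]
    rcases n1_idx hxy l₂ hx hy with ⟨d, h1, h2, h3⟩ | ⟨d, h1, h2, h3⟩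
    · rw [h2, h3, h1]
      exact n1_E1 _ d (by omega)
    · rw [h2, h3, h1]
      exact n1_E2 _ d (by omega)

theorem n1 : StmtN1 := by
  intro l₁ l₂ x y h
  induction hn : (l₁ ++ x :: y :: l₂).length using Nat.strong_induction_on
    generalizing l₁ l₂ with
  | _ n ih =>
    cases l₁ with
    | nil => exact n1_front l₂ x y h
    | cons a l₁ =>
      rw [List.cons_append] at h hn
      have hc := h.count_head
      have hd := h.erase
      have hm := h.mem_tail
      simp only [List.length_cons, List.length_append] at hn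
      rw [List.cons_append, List.cons_append, n1_bot, n1_bot, List.length_cons]
      by_cases e1 : a ∈ l₁
      · rw [List.erase_append_left _ e1] at hd ⊢
        rw [List.erase_append_left _ e1, List.idxOf_append_of_mem e1, List.idxOf_append_of_mem e1]
        have a1 := List.length_erase_of_mem e1
        have a2 := List.idxOf_lt_length_of_mem e1
        have h1 := FE.right (n1T (l₁.idxOf a)) (ih _ (by simp; omega) _ _ hd rfl)
        refine FE.trans ?_ h1
        simp only [List.append_assoc]
        apply FE.left
        rw [bot_cnt hd, show l₁.length + 1 = (l₁.erase a).length + 2 by omega]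
        exact n1_A (by simp) _ (by omega)
      · rw [List.erase_append_right _ e1] at hd ⊢
        rw [List.erase_append_right _ e1, List.idxOf_append_of_notMem e1,
          List.idxOf_append_of_notMem e1]
        by_cases e2 : x = a
        · subst e2
          have e3 : y ≠ x := by
            rintro rfl
            simp [List.count_append] at hc
            omega
          have f1 : (y :: x :: l₂).erase x = y :: l₂ := by simp [e3]
          rw [f1, List.idxOf_cons_ne _ e3]
          simp only [List.erase_cons_head, List.idxOf_cons_self, Nat.add_zero, Nat.zero_add,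
            Nat.succ_eq_add_one]
          rw [n1T_succ, List.append_assoc]
          exact FE.refl _ _
        · by_cases e3 : y = a
          · subst e3
            have f1 : (x :: y :: l₂).erase y = x :: l₂ := by simp [e2]
            rw [f1] at hd
            rw [f1, List.idxOf_cons_ne _ e2]
            simp only [List.erase_cons_head, List.idxOf_cons_self, Nat.add_zero, Nat.zero_add,
              Nat.succ_eq_add_one, List.append_assoc]
            apply FE.left
            rw [bot_cnt hd]
            exact n1_D (by simp)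
          · have e4 : a ∈ l₂ := by
              simpa [e1, Ne.symm e2, Ne.symm e3] using hm
            have f1 : (x :: y :: l₂).erase a = x :: y :: l₂.erase a := by simp [e2, e3]
            have f2 : (y :: x :: l₂).erase a = y :: x :: l₂.erase a := by simp [e2, e3]
            rw [f1] at hd
            rw [f1, f2, List.idxOf_cons_ne _ e2, List.idxOf_cons_ne _ e3,
              List.idxOf_cons_ne _ e3, List.idxOf_cons_ne _ e2]
            have a1 := List.length_erase_of_mem e4
            have a2 := List.idxOf_lt_length_of_mem e4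
            have e5 : l₁.length + (l₂.idxOf a).succ.succ = l₁.length + 2 + l₂.idxOf a := by omega
            rw [e5]
            have h1 := FE.right (n1T (l₁.length + 2 + l₂.idxOf a))
              (ih _ (by simp; omega) _ _ hd rfl)
            refine FE.trans ?_ h1
            simp only [List.append_assoc]
            apply FE.left
            rw [bot_cnt hd]
            exact n1_B _ (by simp; omega)

end Pool.Agent.MP_d5eec5_gt.H77
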